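import Pool.Agent.Q61.DP.Stm

/-!
# Job DP-14 (project DP of helper61): the diameter is at least `π`
-/

set_option autoImplicit false

namespace Pool.Agent.Q96.DP

open MeasureTheory InnerProductSpace Topology Filter Set Metric Pool.Agent.Q61.DP
open scoped ENNReal

/-- two entire functions with Wronskian `1` are not proportional -/
theorem not_bounded_quot {a b : ℂ → ℂ} (ha : Differentiable ℂ a) (hb : Differentiable ℂ b)
    (hw : ∀ z, a z * deriv b z - deriv a z * b z = 1) (hb0 : ∀ z, b z ≠ 0) {C : ℝ}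
    (hC : ∀ z, ‖a z‖ ≤ C * ‖b z‖) : False := by
  have hq : Differentiable ℂ fun z => a z / b z := ha.div hb hb0
  have hbd : Bornology.IsBounded (range fun z => a z / b z) := by
    rw [isBounded_iff_forall_norm_le]
    refine ⟨C, ?_⟩
    rintro _ ⟨z, rfl⟩
    have h1 : 0 < ‖b z‖ := norm_pos_iff.2 (hb0 z)
    simp only [norm_div]
    rw [div_le_iff₀ h1]
    exact hC z
  obtain ⟨l, hl⟩ := hq.exists_const_forall_eq_of_bounded hbd
  have hab : a = fun z => l * b z := by
    funext z
    have h1 : a z / b z = l := hl z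
    rw [← h1, div_mul_cancel₀ _ (hb0 z)]
  have hda : deriv a 0 = l * deriv b 0 := by
    rw [hab]
    exact deriv_const_mul l (hb 0)
  have h2 := hw 0
  rw [hda, congrFun hab 0] at h2
  apply one_ne_zero (α := ℂ)
  rw [← h2]
  ring

theorem ex_small (hT : S_TH) {u : ℂ → ℝ} {a b : ℂ → ℂ} (h : Dev u a b) {e : ℝ} (he : 0 < e)
    (he1 : e < Real.pi) : ∃ x, th a b x < e := by
  by_contra hcon
  push Not at hcon
  obtain ⟨h1, h2, -, -⟩ := hT u a b h
  have hc : 0 < Real.tan (e / 2) := Real.tan_pos_of_pos_of_lt_pi_div_two (by linarith) (by linarith)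
  have hle : ∀ z, ‖a z‖ ≤ (Real.tan (e / 2))⁻¹ * ‖b z‖ := by
    intro z
    by_cases ha : a z = 0
    · rw [ha, norm_zero]
      positivity
    · have h3 := h1 z ha
      have h4 := hcon z
      rw [h3] at h4
      have hpos : 0 < ‖a z‖ := norm_pos_iff.2 ha
      have h5 : e / 2 ≤ Real.arctan (‖b z‖ / ‖a z‖) := by linarith
      have h6 : Real.tan (e / 2) ≤ ‖b z‖ / ‖a z‖ := by
        have h7 := Real.arctan_tan (x := e / 2) (by linarith) (by linarith)
        rw [← h7] at h5
        exact Real.arctan_strictMono.le_iff_le.1 h5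
      rw [le_div_iff₀ hpos] at h6
      rw [inv_mul_eq_div, le_div_iff₀ hc]
      linarith
  refine not_bounded_quot h.da h.db h.wr (fun z hz => ?_) hle
  have h8 := hle z
  rw [hz, norm_zero, mul_zero] at h8
  have h9 : a z = 0 := norm_eq_zero.1 (le_antisymm h8 (norm_nonneg _))
  exact (h2 z h9).1 hz

theorem ex_big (hT : S_TH) {u : ℂ → ℝ} {a b : ℂ → ℂ} (h : Dev u a b) {e : ℝ} (he : 0 < e)
    (he1 : e < Real.pi) : ∃ x, Real.pi - e < th a b x := by
  by_contra hcon
  push Not at hcon
  obtain ⟨h1, h2, -, -⟩ := hT u a b h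
  have ha0 : ∀ z, a z ≠ 0 := by
    intro z hz
    have h3 := (h2 z hz).2
    have h4 := hcon z
    linarith
  have hle : ∀ z, ‖b z‖ ≤ Real.tan ((Real.pi - e) / 2) * ‖a z‖ := by
    intro z
    have h3 := h1 z (ha0 z)
    have h4 := hcon z
    rw [h3] at h4
    have hpos : 0 < ‖a z‖ := norm_pos_iff.2 (ha0 z)
    have h5 : Real.arctan (‖b z‖ / ‖a z‖) ≤ (Real.pi - e) / 2 := by linarith
    have h6 : ‖b z‖ / ‖a z‖ ≤ Real.tan ((Real.pi - e) / 2) := by
      have h7 := Real.arctan_tan (x := (Real.pi - e) / 2) (by linarith) (by linarith)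
      rw [← h7] at h5
      exact Real.arctan_strictMono.le_iff_le.1 h5
    rwa [div_le_iff₀ hpos] at h6
  refine not_bounded_quot (a := b) (b := fun z => -a z) h.db h.da.neg (fun z => ?_)
    (fun z => neg_ne_zero.2 (ha0 z)) (C := Real.tan ((Real.pi - e) / 2)) (fun z => ?_)
  · have h3 := h.wr z
    have h4 : deriv (fun z => -a z) z = -deriv a z := deriv.neg
    rw [h4]
    linear_combination h3
  · rw [norm_neg]
    exact hle z

theorem low (hT : S_TH) (hL : S_LEN) : S_LOW := by
  intro u a b h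
  have key : ∀ e : ℝ, 0 < e → e < Real.pi → ENNReal.ofReal (Real.pi - 2 * e) ≤ gdiam u := by
    intro e he he1
    obtain ⟨x, hx⟩ := ex_small hT h he he1
    obtain ⟨y, hy⟩ := ex_big hT h he he1
    refine le_trans ?_ (le_iSup_of_le x (le_iSup (fun y => gdist u x y) y))
    refine le_iInf fun γ => le_iInf fun hγ => ENNReal.ofReal_le_ofReal ?_
    obtain ⟨h1, h2, h3⟩ := hγ
    have h4 := hL u a b h γ h1 0 (by constructor <;> norm_num)
    rw [sub_self, abs_zero, zero_add, h2, h3] at h4
    have h5 := le_abs_self (th a b y - th a b x)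
    linarith
  have hlim : Tendsto (fun n : ℕ => ENNReal.ofReal (Real.pi - 2 * (1 / ((n : ℝ) + 1)))) atTop
      (𝓝 (ENNReal.ofReal Real.pi)) := by
    apply ENNReal.tendsto_ofReal
    have h1 : Tendsto (fun n : ℕ => Real.pi - 2 * (1 / ((n : ℝ) + 1))) atTop
        (𝓝 (Real.pi - 2 * 0)) :=
      (tendsto_one_div_add_atTop_nhds_zero_nat.const_mul 2).const_sub _
    simpa using h1
  refine le_of_tendsto hlim (Eventually.of_forall fun n => key _ (by positivity) ?_)
  have h1 : 1 / ((n : ℝ) + 1) ≤ 1 := by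
    rw [div_le_one (by positivity)]
    have : (0 : ℝ) ≤ n := Nat.cast_nonneg _
    linarith
  have := Real.pi_gt_three
  linarith

end Pool.Agent.Q96.DP
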